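import Pool.Agent.Helper79.GT.St5

/-! Project GT, module TX1: calls of the kind 1. -/

set_option autoImplicit false

namespace Pool.Agent.Helper67.GT

open Pool.Agent.Helper19.SK Pool.Agent.Helper73.DC Finset
open Pool.Agent.Helper79.GS Pool.Agent.Helper79.GT
open scoped Classical

private theorem b01_one {p : Prop} : b01 p = 1 ↔ p := by
  unfold b01
  split_ifs with h <;> simp [h]

private theorem b01_zero {p : Prop} : b01 p = 0 ↔ ¬ p := by
  unfold b01
  split_ifs with h <;> simp [h]

private theorem b01_ne {p : Prop} : b01 p ≠ 0 ↔ p := by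
  rw [Ne, b01_zero, not_not]

private theorem b01_le (p : Prop) : b01 p ≤ 1 := by
  unfold b01
  split_ifs <;> simp

private theorem b01_congr {p q : Prop} (h : p ↔ q) : b01 p = b01 q := by
  rw [propext h]

private theorem WN_eq {P : Type} (A : Arena P) (sk : Bool) (H₀ : Set (Bool × P)) (r : ℕ) :
    WNs A sk H₀ r = WstS A sk H₀ (ENs A sk H₀ r) := by
  cases r <;> rfl

private theorem Xb_pos (L : ℕ) : 0 < Xb L := by
  unfold Xb Qb
  positivity

theorem hTX1 (hBNX : StBNX) (hFLX : StFLX) (hARX : StARX) : Pool.Agent.Helper79.GT.StTX1 := by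
  intro X hX w r c a b u k m fl d s t x h
  obtain ⟨_, hPh, hPh14, hNb, h2Nb, hnm, hSd, _, _, hPl3, hPlS, hXbl, _, _, _, _, h16, _⟩ :=
    hBNX X hX w
  have hPN : PhX X (NN X.e w) w ≤ NN X.e w := (Nat.le_self_pow (by norm_num) _).trans hPh14
  obtain ⟨⟨f0, f1, f2, f3, f4, f5, f6, f7, f8, f9, f10, f11, f12⟩, hz, hV, hrk, hok⟩ :=
    (hFLX X hX w).2.2.2 1 r c a b u k m fl d s t x h
  obtain ⟨_, hrk0, hok0, _⟩ := hFLX X hX w
  generalize zzX X (NN X.e w) w 1 r c a b u k m fl d s t x = z at *
  obtain ⟨_, _, hr, hc, _, _, hu, _, _, _, _, _, _, _, _, _⟩ := h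
  have hIni : IniX X (NN X.e w) w z = 0 := by
    unfold IniX
    rw [f0, if_neg (by norm_num)]
  have hLen : LenX X (NN X.e w) w z =
      if ahX X (NN X.e w) w c u then 2 ^ X.K w + 2 else 1 := by
    unfold LenX
    rw [f0, if_pos rfl, f2, f5, hNb]
  have hDel : ∀ j, DelX X (NN X.e w) w z j = del1X X (NN X.e w) w r c u j := by
    intro j
    unfold DelX
    rw [f0, if_pos rfl, f1, f2, f5]
  have hStp : ∀ j a y, StpX X (NN X.e w) w z j a y = stp1X X (NN X.e w) w c u j a y := by
    intro j a y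
    unfold StpX
    rw [f0, if_pos rfl, f2, f5]
  have hOut : ∀ a, OutX X (NN X.e w) w z a = b01 (a = 1) := by
    intro a
    unfold OutX
    rw [f0, if_neg (by norm_num), if_neg (by norm_num)]
  have hstp1 : ∀ j a y, stp1X X (NN X.e w) w c u j a y ≤ 1 := by
    intro j a y
    unfold stp1X
    split_ifs <;> exact b01_le _
  have hS0 : 0 < (2 ^ LX X w + 1) * (2 ^ LX X w + 2) := by positivity
  have h30 : 0 < 2 ^ X.K w := by positivity
  -- the call of the kind 2
  have hO2 : OkFX X w 2 r c 0 0 u 0 0 0 0 0 0 0 :=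
    ⟨by norm_num, by norm_num, hr, hc, h30, h30, hu, Nat.zero_le _, fun _ => Nat.zero_le _, Nat.zero_le _,
      Nat.zero_le _, Nat.zero_le _, hS0, hS0, Xb_pos _, fun h => absurd h (by norm_num)⟩
  obtain ⟨_, _, hV2, hrk2, hok2⟩ := (hFLX X hX w).2.2.2 2 r c 0 0 u 0 0 0 0 0 0 0 hO2
  have hrk2' : rkX X w (zzX X (NN X.e w) w 2 r c 0 0 u 0 0 0 0 0 0 0) < rkX X w z := by
    rw [hrk2, hrk]
    unfold rkFX
    simp only [show ¬ ((1 : ℕ) = 0) by norm_num, show ¬ ((2 : ℕ) = 0) by norm_num,
      show ¬ ((2 : ℕ) = 1) by norm_num, if_false, if_true]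
    omega
  have hV2' : ValX X w (zzX X (NN X.e w) w 2 r c 0 0 u 0 0 0 0 0 0 0) =
      b01 (ENs (AX X w) X.sk (HX X w) r (cB c) u) := by
    rw [hV2]
    unfold ValFX
    rw [if_neg (by norm_num), if_pos rfl]
  -- the calls of the kind 3
  have k3 : ∀ c' a' b' u' : ℕ, c' ≤ 1 → a' < 2 ^ X.K w → b' < 2 ^ X.K w →
      u' < 2 ^ X.K w →
      OkX X w (zzX X (NN X.e w) w 3 r c' a' b' u' (idX X (NN X.e w) w c' u') 0 0 0 0 0 0) ∧
      rkX X w (zzX X (NN X.e w) w 3 r c' a' b' u' (idX X (NN X.e w) w c' u') 0 0 0 0 0 0) <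
        rkX X w z ∧
      ValX X w (zzX X (NN X.e w) w 3 r c' a' b' u' (idX X (NN X.e w) w c' u') 0 0 0 0 0 0) =
        b01 (XINS (AX X w) (ENs (AX X w) X.sk (HX X w) r) (VX X w c' a' b') (cB c') u') := by
    intro c' a' b' u' hc' ha' hb' hu'
    obtain ⟨_, _, _, _, _, hid, hid2, _, _⟩ := hARX X hX w c' u' 0 hc'
    have hO3 : OkFX X w 3 r c' a' b' u' (idX X (NN X.e w) w c' u') 0 0 0 0 0 0 :=
      ⟨by norm_num, by norm_num, hr, hc', ha', hb', hu', hid2, fun h => absurd rfl h, Nat.zero_le _,
        Nat.zero_le _, Nat.zero_le _, hS0, hS0, Xb_pos _, fun h => absurd h (by norm_num)⟩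
    obtain ⟨_, _, hV3, hrk3, hok3⟩ :=
      (hFLX X hX w).2.2.2 3 r c' a' b' u' (idX X (NN X.e w) w c' u') 0 0 0 0 0 0 hO3
    refine ⟨hok3, ?_, ?_⟩
    · rw [hrk3, hrk]
      unfold rkFX
      simp only [show ¬ ((1 : ℕ) = 0) by norm_num, show ¬ ((3 : ℕ) = 0) by norm_num,
        show ¬ ((3 : ℕ) = 1) by norm_num, show ¬ ((3 : ℕ) = 2) by norm_num, if_false, if_true]
      have h1 : idX X (NN X.e w) w c' u' * (LX X w + 6) ≤ (X.S w + 1) * (LX X w + 6) :=
        Nat.mul_le_mul_right _ hid2
      have h2 : (X.S w + 2) * (LX X w + 6) =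
          (X.S w + 1) * (LX X w + 6) + (LX X w + 6) := by ring
      omega
    · rw [hV3]
      unfold ValFX XINS
      rw [if_neg (by norm_num), if_neg (by norm_num), if_pos rfl, hid]
  obtain ⟨hnc, _, _, hrv, hah, _, _, _⟩ := hARX X hX w c u 0 hc
  have h1c : 1 - c ≤ 1 := Nat.sub_le _ _
  have hxlt : ∀ x, c1X X (NN X.e w) w c u x → x < 2 ^ X.K w := by
    intro x hx
    exact ((hARX X hX w c u x hc).2.2.2.2.2.2.2.1 hx.1.1).2
  have hH : ∀ x, (!cB c, x) ∈ HX X w ↔ X.H (NN X.e w) w (1 - c) x := by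
    intro x
    rw [hnc]
    exact ((hARX X hX w c u x hc).2.2.2.2.2.2.2.2.2 (1 - c) h1c).1
  have hVX : ∀ a b : ℕ, VX X w (1 - c) a b = Vis X.sk (HX X w) (!cB c) a b := by
    intro a b
    rw [hnc]
    rfl
  unfold TagX
  refine ⟨?_, ?_, ?_, ?_, ?_⟩
  · rw [hIni]
    omega
  · rw [hLen]
    split_ifs <;> omega
  · intro j hj
    refine ⟨?_, ?_, ?_⟩
    · rw [hDel]
      unfold del1X
      split_ifs with h1 h2 h3 h4
      · exact hok2
      · exact (k3 _ _ _ _ h1c hu hu hu).1
      · exact (k3 _ _ _ _ h1c hu (hxlt _ h4) (hxlt _ h4)).1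
      · exact hok0
      · exact (k3 _ _ _ _ hc hu hu hu).1
    · rw [hDel]
      unfold del1X
      split_ifs with h1 h2 h3 h4
      · exact hrk2'
      · exact (k3 _ _ _ _ h1c hu hu hu).2.1
      · exact (k3 _ _ _ _ h1c hu (hxlt _ h4) (hxlt _ h4)).2.1
      · rw [hrk0]
        omega
      · exact (k3 _ _ _ _ hc hu hu hu).2.1
    · intro a' _ y _
      rw [hStp]
      have := hstp1 j a' y
      omega
  · intro a' _
    rw [hOut]
    have := b01_le (a' = 1)
    omega
  · rw [hV, hOut, hIni, hLen]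
    have hfun : (fun j a => StpX X (NN X.e w) w z j a (ValX X w (DelX X (NN X.e w) w z j))) =
        fun j a => stp1X X (NN X.e w) w c u j a (ValX X w (del1X X (NN X.e w) w r c u j)) := by
      funext j a
      rw [hStp, hDel]
    rw [hfun]
    have hVF : ValFX X w 1 r c a b u k m fl d s t x =
        b01 (WNs (AX X w) X.sk (HX X w) r (cB c) u) := by
      unfold ValFX
      rw [if_pos rfl]
    rw [hVF]
    refine b01_congr ?_
    rw [WN_eq]
    unfold WstS
    by_cases hA : ahX X (NN X.e w) w c u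
    · rw [if_pos hA, if_pos (hah.mpr hA)]
      set EX := ENs (AX X w) X.sk (HX X w) r with hEX
      set Q : ℕ → Prop := fun i => if i = 0 then EX (cB c) u else if i = 1 then
        ¬ XINS (AX X w) EX (Vis X.sk (HX X w) (!cB c) u u) (!cB c) u else
        c1X X (NN X.e w) w c u (i - 2) ∧
          ¬ XINS (AX X w) EX (Vis X.sk (HX X w) (!cB c) u (i - 2)) (!cB c) (i - 2) with hQ
      have key : ∀ J : ℕ, (Nat.rec 0 (fun j a => stp1X X (NN X.e w) w c u j a
          (ValX X w (del1X X (NN X.e w) w r c u j))) J : ℕ) = b01 (∃ i < J, Q i) := by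
        intro J
        induction J with
        | zero =>
          change 0 = _
          symm
          rw [b01_zero]
          simp
        | succ J ih =>
          change stp1X X (NN X.e w) w c u J (Nat.rec 0 (fun j a => stp1X X (NN X.e w) w c u j a
            (ValX X w (del1X X (NN X.e w) w r c u j))) J : ℕ)
            (ValX X w (del1X X (NN X.e w) w r c u J)) = _
          rw [ih]
          have hsucc : (∃ i < J + 1, Q i) ↔ ((∃ i < J, Q i) ∨ Q J) := by
            constructor
            · rintro ⟨i, hi, hq⟩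
              rcases Nat.lt_succ_iff_lt_or_eq.mp hi with h1 | h1
              · exact Or.inl ⟨i, h1, hq⟩
              · rw [h1] at hq
                exact Or.inr hq
            · rintro (⟨i, hi, hq⟩ | hq)
              · exact ⟨i, by omega, hq⟩
              · exact ⟨J, by omega, hq⟩
          rw [b01_congr hsucc]
          unfold stp1X del1X
          rw [if_pos hA, if_pos hA]
          by_cases h0 : J = 0
          · rw [if_pos h0, if_pos h0, hV2']
            refine b01_congr ?_
            rw [b01_one, b01_ne, hQ]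
            simp only [h0, if_true]
          · rw [if_neg h0, if_neg h0]
            by_cases h1 : J = 1
            · rw [if_pos h1, if_pos h1, (k3 _ _ _ _ h1c hu hu hu).2.2, hVX, ← hnc]
              refine b01_congr ?_
              rw [b01_one, b01_zero, hQ]
              simp only [h1, if_true, if_neg (show ¬ ((1 : ℕ) = 0) by norm_num)]
            · rw [if_neg h1, if_neg h1]
              by_cases h2 : c1X X (NN X.e w) w c u (J - 2)
              · rw [if_pos h2, (k3 _ _ _ _ h1c hu (hxlt _ h2) (hxlt _ h2)).2.2, hVX, ← hnc]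
                refine b01_congr ?_
                rw [b01_one, b01_zero, hQ]
                simp only [h1, h0, if_false]
              · refine b01_congr ?_
                rw [b01_one, hQ]
                simp only [h1, h0, h2, if_false, false_and, or_false]
      refine Iff.trans ?_ (Iff.trans b01_one.symm
        (iff_of_eq (congrArg (fun q => q = 1) (key (2 ^ X.K w + 2)).symm)))
      constructor
      · rintro (h1 | h1 | ⟨x', h1, h2, h2', h3⟩)
        · refine ⟨0, by omega, ?_⟩
          rw [hQ]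
          simpa using h1
        · refine ⟨1, by omega, ?_⟩
          rw [hQ]
          simpa using h1
        · have hc1 : c1X X (NN X.e w) w c u x' :=
            ⟨((hARX X hX w c u x' hc).2.2.2.1).mp h1, fun h4 => h2 ((hH x').mpr h4), h2'⟩
          have := hxlt _ hc1
          refine ⟨x' + 2, by omega, ?_⟩
          rw [hQ]
          simp only [show ¬ (x' + 2 = 0) by omega, show ¬ (x' + 2 = 1) by omega, if_false,
            show x' + 2 - 2 = x' by omega]
          exact ⟨hc1, h3⟩
      · rintro ⟨i, hi, hq⟩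
        rw [hQ] at hq
        by_cases h0 : i = 0
        · simp only [h0, if_true] at hq
          exact Or.inl hq
        · by_cases h1 : i = 1
          · simp only [h1, if_true, if_neg (show ¬ ((1 : ℕ) = 0) by norm_num)] at hq
            exact Or.inr (Or.inl hq)
          · simp only [h1, h0, if_false] at hq
            obtain ⟨⟨h2, h3, h4⟩, h5⟩ := hq
            exact Or.inr (Or.inr ⟨i - 2, ((hARX X hX w c u (i - 2) hc).2.2.2.1).mpr h2,
              fun h6 => h3 ((hH (i - 2)).mp h6), h4, h5⟩)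
    · rw [if_neg hA, if_neg (fun h => hA (hah.mp h))]
      change _ ↔ stp1X X (NN X.e w) w c u 0 0 (ValX X w (del1X X (NN X.e w) w r c u 0)) = 1
      unfold stp1X del1X
      rw [if_neg hA, if_neg hA, (k3 _ _ _ _ hc hu hu hu).2.2, b01_one, b01_ne]
      rfl

end Pool.Agent.Helper67.GT
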